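import Pool.Agent.N882.UE.GenLine

/-!
# Geometric origin of lisse sheaves over finite fields: the generic line of the affine space

Characteristic `p`. `Ω` is an algebraically closed field (of large transcendence degree), the fields are
subfields of `Ω`, and lisse sheaves on smooth varieties over finite fields with function field `F` are
regarded as representations of the group of automorphisms of `Ω` over `F`. For every `N` the following
are equivalent:

1. Q1 holds for all varieties of dimension at most `N`;
2. Q1 holds for the affine spaces of dimension at most `N` over finite fields;
3. for `2 ≤ n ≤ N`, every irreducible lisse sheaf with determinant of finite order on an affine space of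
   dimension `n` over a finite field `k` is of geometric origin on the geometric generic fibre of the
   projection to the affine space of dimension `n - 1`, an affine line over the algebraic closure of
   `k(x_1, …, x_(n-1))`.

The step from 3 to 1 is a dévissage: if `V` is on the geometric generic fibre a quotient of
`R = R^i π_*`, then `V` is a quotient of `R ⊗ W`, where `W` is the pullback of the sheaf
`Hom(R, V)^{geo}` on the base, to which the induction hypothesis applies.
-/

set_option autoImplicit false

namespace Pool.Agent.Results.MP_80bee4_ag.GenericLine

open Pool.Agent.N882.UE.FM

theorem result {p : ℕ} [Fact p.Prime] {Ω : Type} [Field Ω] [CharP Ω p] [IsAlgClosed Ω] {Λ : Type}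
    [Field Λ] [CharZero Λ] (T : Arith Ω Λ) (hT : FactsA T) (N : ℕ) :
    [AllA T N, SpaceA T N, GenericA T N].TFAE :=
  generic_tfae hT N

end Pool.Agent.Results.MP_80bee4_ag.GenericLine
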