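import Pool.Agent.N522.GO.Theory

/-!
# `MP_80bee4_ag`: geometric origin for products, fibrations and dominated varieties
-/

namespace Pool.Agent.Results.MP_80bee4_ag.GeometricOrigin

open Pool.Agent.N522.GO

/-- Q1 holds for every `X` in the smallest class of smooth varieties over finite fields containing
those of dimension at most one (and a given class `S` for which Q1 holds) and closed under products
with a proper factor (or tame sheaves on products), under smooth proper fibrations with fibres of
virtually abelian `π₁`, and under passing from `Y` to a variety `X` dominated by `Y`. -/
theorem result {K : Type} [Field K] [IsAlgClosed K] [TopologicalSpace K] [IsTopologicalRing K]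
    [T2Space K] (T : Data K) (hT : Facts T) (S : T.Obj → Prop) (hS : ∀ X, S X → Good T X) :
    ∀ X, Gen T S X → Good T X :=
  fun X hX => main T hT S hS X hX

end Pool.Agent.Results.MP_80bee4_ag.GeometricOrigin
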